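import Pool.Agent.R441.Num

/-!
The conjectured value of `S_1(p) = ∑_{k<p} binom(-1/4,k) binom(-1/2,k)/4^k` modulo `p²` for
`p ≡ 1 (mod 12)` is wrong for `p = 37`.
-/

set_option autoImplicit false

namespace Pool.Agent.Results.MP_8312d7_nt.ThirtySevenFails

open Pool.Agent.R441 (CongMod not_congMod)

/-- `binom(a,k) = a (a-1) ⋯ (a-k+1) / k!` -/
def bc (a : ℚ) (k : ℕ) : ℚ := (∏ j ∈ Finset.range k, (a - j)) / k.factorial

/-- `S_1(p) = ∑_{k<p} binom(-1/4,k) binom(-1/2,k) / 4^k` -/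
def S1 (p : ℕ) : ℚ := ∑ k ∈ Finset.range p, bc (-1 / 4) k * bc (-1 / 2) k / 4 ^ k

/-- `S_2(p) = ∑_{k<p} binom(-1/2,k) binom(-1/6,k) 2^k` -/
def S2 (p : ℕ) : ℚ := ∑ k ∈ Finset.range p, bc (-1 / 2) k * bc (-1 / 6) k * 2 ^ k

/-- The statement of the conjecture for the prime `p ≡ 1 (mod 4)` -/
def QOne (p : ℕ) : Prop :=
  CongMod p 2 (S1 p) (jacobiSym p 3 * S2 p) ∧
  (12 ∣ p - 1 → ∀ x y : ℤ, (p : ℤ) = x ^ 2 + y ^ 2 → Odd x →
    CongMod p 2 (S1 p) ((-1 : ℚ) ^ ((p - 1) / 4 + (x + 1) / 2 : ℤ) * (2 * x - p / (2 * x)))) ∧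
  (12 ∣ p - 5 → ∃ x y : ℤ, (p : ℤ) = x ^ 2 + y ^ 2 ∧ Odd x ∧
    CongMod p 2 (S1 p) (2 * y - p / (2 * y)))

/-- There is a prime `p ≡ 1 (mod 4)` (namely `37 = 1² + 6²`, where `12 ∣ p - 1`) for which the
stated value of `S_1(p)` modulo `p²` is wrong: for all its representations `p = x² + y²` with `x`
odd, `S_1(p)` is not congruent modulo `p²` to the stated value, but to its negative. -/
theorem result : ∃ p : ℕ, p = 37 ∧ p.Prime ∧ p % 4 = 1 ∧ 12 ∣ p - 1 ∧ ¬ QOne p ∧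
    ∀ x y : ℤ, (p : ℤ) = x ^ 2 + y ^ 2 → Odd x →
      ¬ CongMod p 2 (S1 p)
        ((-1 : ℚ) ^ ((p - 1) / 4 + (x + 1) / 2 : ℤ) * (2 * x - p / (2 * x))) ∧
      CongMod p 2 (S1 p)
        (-((-1 : ℚ) ^ ((p - 1) / 4 + (x + 1) / 2 : ℤ) * (2 * x - p / (2 * x)))) := by
  have key : ∀ x y : ℤ, ((37 : ℕ) : ℤ) = x ^ 2 + y ^ 2 → Odd x →
      (-1 : ℚ) ^ (((37 : ℕ) - 1) / 4 + (x + 1) / 2 : ℤ) * (2 * x - (37 : ℕ) / (2 * x))
        = -33 / 2 := by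
    intro x y h ho
    have hx : x ^ 2 ≤ 37 := by push_cast at h; nlinarith [sq_nonneg y]
    have hy : y ^ 2 ≤ 37 := by push_cast at h; nlinarith [sq_nonneg x]
    have hx1 : x ≤ 6 := by nlinarith
    have hx2 : -6 ≤ x := by nlinarith
    have hy1 : y ≤ 6 := by nlinarith
    have hy2 : -6 ≤ y := by nlinarith
    have : x = 1 ∨ x = -1 := by
      obtain ⟨t, rfl⟩ := ho
      have ht1 : t ≤ 2 := by omega
      have ht2 : -3 ≤ t := by omega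
      interval_cases t <;> interval_cases y <;> simp_all
    rcases this with rfl | rfl
    · norm_num
    · norm_num
  have h2 : ∀ x y : ℤ, ((37 : ℕ) : ℤ) = x ^ 2 + y ^ 2 → Odd x →
      ¬ CongMod 37 2 (S1 37)
        ((-1 : ℚ) ^ (((37 : ℕ) - 1) / 4 + (x + 1) / 2 : ℤ) * (2 * x - (37 : ℕ) / (2 * x))) := by
    intro x y h ho
    rw [key x y h ho]
    exact not_congMod (by norm_num) (by decide +kernel)
  refine ⟨37, rfl, by norm_num, by norm_num, by norm_num, ?_, ?_⟩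
  · rintro ⟨-, h, -⟩
    exact h2 1 6 (by norm_num) (by decide) (h (by norm_num) 1 6 (by norm_num) (by decide))
  · intro x y h ho
    refine ⟨h2 x y h ho, ?_⟩
    rw [key x y h ho]
    refine ⟨(S1 37 - -(-33 / 2)) / 37 ^ 2, by decide +kernel, by push_cast; ring⟩

end Pool.Agent.Results.MP_8312d7_nt.ThirtySevenFails
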